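import Pool.Agent.H884R2.Sko.Density

set_option autoImplicit false

/-!
# The Skolem Problem is decidable for almost all initial values of every simple recurrence

One errorless algorithm, valid for all orders; it halts if and only if the sequence has a zero or
some prime divides no term.  For every recurrence with squarefree characteristic polynomial (no
restriction on the order or on the number of dominant roots) it halts for almost all initial
values; a single prime is a certificate for all but a proportion `ε` of them.

Proof idea.  Modulo a prime `p` for which the characteristic polynomial splits and all its roots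
are `l`-th powers, all sequences have period `(p - 1) / l`, and each of these `(p - 1) / l` terms
vanishes for a proportion `1 / p` of the initial values.
-/

namespace Pool.Agent.Results.MP_8d13b5_lc.AlmostAllInitialValues

open Pool.Agent.H884R2.Sko Pool.Agent.H692R2.USS
open scoped Classical

theorem result :
    -- one algorithm for all integer linear recurrence sequences
    ∃ A : List (ℕ × ℕ) × List (ℕ × ℕ) →. Bool, Partrec A ∧
      -- it never errs
      (∀ p u, IsLRS p u → ∀ b ∈ A p, (b = true ↔ ∃ n, u n = 0)) ∧
      -- it halts iff there is a zero or a prime dividing no term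
      (∀ p u, IsLRS p u →
        ((A p).Dom ↔ (∃ n, u n = 0) ∨ ∃ q : ℕ, q.Prime ∧ ∀ n, ¬ (q : ℤ) ∣ u n)) ∧
      -- every recurrence with squarefree characteristic polynomial
      ∀ (d : ℕ) (hd : 1 ≤ d) (c : Fin d → ℤ), c ⟨d - 1, by omega⟩ ≠ 0 →
        Squarefree ((charPoly c).map (Int.castRingHom ℚ)) →
        -- the proportion of initial values for which it halts tends to one, for all sequences of
        -- cubes with side tending to infinity
        (∀ b : ℕ → Fin d → ℤ, Filter.Tendsto (fun H : ℕ =>
          (((box (b H) H).filter (fun a => (A (code c, code a)).Dom)).card : ℝ) / (2 * H + 1) ^ d)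
          Filter.atTop (nhds 1)) ∧
        -- because a single prime divides no term, for all but a proportion `ε` of them
        (∀ ε : ℝ, 0 < ε → ∀ N : ℕ, ∃ p : ℕ, p.Prime ∧ N < p ∧ ∀ H : ℕ, p ≤ H → ∀ b : Fin d → ℤ,
          (((box b H).filter (fun a => ∃ u, IsSeq c a u ∧ ∃ n, (p : ℤ) ∣ u n)).card : ℝ) ≤
            ε * (2 * H + 1) ^ d) := by
  obtain ⟨A, hA, h⟩ := algo
  refine ⟨A, hA, fun p u hu => (h p u hu).1, fun p u hu => (h p u hu).2, ?_⟩
  intro d hd c hc hsq
  refine ⟨fun b => fiber_density hd c hc hsq (fun a => (A (code c, code a)).Dom) ?_ b,
    fun ε hε N => fiber_box hd c hc hsq ε hε N⟩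
  intro a u hu hq
  exact ((h _ u (isLRS_code hd c a hc hu)).2).2 (Or.inr hq)

end Pool.Agent.Results.MP_8d13b5_lc.AlmostAllInitialValues
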