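import Mathlib
import Pool.Agent.H865R2.SK.Comp

set_option autoImplicit false

open Finset Pool.Agent.H865R2.SK

namespace Pool.Agent.Results.MP_8d13b5_lc.SparseExceptions

/-- `u` is the integer linear recurrence sequence given by the finite data `p`: `p.1` lists the
coefficients `c₁, …, c_d` and `p.2` the initial values `u₀, …, u_{d-1}`, every integer being coded
by a pair `(a, b)` of naturals with value `a - b`; `c_d ≠ 0`. -/
def IsLRS (p : List (ℕ × ℕ) × List (ℕ × ℕ)) (u : ℕ → ℤ) : Prop :=
  p.1.length = p.2.length ∧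
  (∃ q ∈ p.1.getLast?, (q.1 : ℤ) ≠ (q.2 : ℤ)) ∧
  (∀ i < p.2.length, u i = ((p.2.getD i (0, 0)).1 : ℤ) - ((p.2.getD i (0, 0)).2 : ℤ)) ∧
  (∀ n : ℕ, u (n + p.1.length) =
    ∑ i ∈ Finset.range p.1.length,
      (((p.1.getD i (0, 0)).1 : ℤ) - ((p.1.getD i (0, 0)).2 : ℤ)) * u (n + p.1.length - 1 - i))

theorem isLRS_sq {p : List (ℕ × ℕ) × List (ℕ × ℕ)} (h : Valid p) : IsLRS p (sq p) :=
  ⟨h.1, h.2, fun i hi => sq_init p i hi, fun n => sq_rec p h.1 n⟩

theorem isLRS_unique {p : List (ℕ × ℕ) × List (ℕ × ℕ)} {u : ℕ → ℤ} (h : IsLRS p u) :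
    u = sq p := by
  obtain ⟨h1, h2, h3, h4⟩ := h
  funext n
  induction n using Nat.strong_induction_on with
  | _ n ih =>
    rcases Nat.lt_or_ge n p.2.length with hn | hn
    · rw [h3 n hn, sq_init p n hn]; rfl
    · obtain ⟨k, rfl⟩ : ∃ k, n = k + p.1.length := ⟨n - p.1.length, by omega⟩
      rw [h4, sq_rec p h1]
      have hpos := valid_pos (p := p) ⟨h1, h2⟩
      apply Finset.sum_congr rfl
      intro i hi
      rw [Finset.mem_range] at hi
      rw [ih (k + p.1.length - 1 - i) (by omega)]
      rfl

theorem valid_comp : ComputablePred Valid := by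
  have h : ComputablePred fun p : Code =>
      p.1.length = p.2.length ∧ (1 ≤ p.1.length ∧ 1 ≤ la p) := by
    have hl1 : Computable fun p : Code => p.1.length := Computable.list_length.comp Computable.fst
    have hl2 : Computable fun p : Code => p.2.length := Computable.list_length.comp Computable.snd
    apply cp_and
    · have h : ComputablePred fun x : ℕ × ℕ => x.1 = x.2 :=
        PrimrecPred.computablePred (Primrec.eq (α := ℕ))
      exact cp_comp h (hl1.pair hl2)
    · exact cp_and (cp_le (Computable.const 1) hl1) (cp_le (Computable.const 1) la_prim.to_comp)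
  refine h.of_eq ?_
  intro p
  constructor
  · rintro ⟨h1, h2, h3⟩
    refine ⟨h1, ?_⟩
    have h4 : p.1[p.1.length - 1]? = some (p.1.getD (p.1.length - 1) (0, 0)) := by
      rw [List.getD_eq_getElem?_getD]
      have : p.1.length - 1 < p.1.length := by omega
      rw [List.getElem?_eq_getElem this]
      rfl
    refine ⟨p.1.getD (p.1.length - 1) (0, 0), ?_, ?_⟩
    · rw [Option.mem_def, List.getLast?_eq_getElem?, h4]
    · intro h5
      rw [la_eq] at h3
      have : cf p (p.1.length - 1) = 0 := by unfold cf vp; rw [h5, sub_self]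
      rw [this] at h3
      simp at h3
  · intro hv
    refine ⟨hv.1, valid_pos hv, ?_⟩
    rw [la_eq]
    exact Int.natAbs_pos.2 (valid_last hv)

/-- **The Skolem Problem outside an arbitrarily sparse decidable set.** For every computable,
nondecreasing, unbounded `g` there is a decidable `T ⊆ ℕ` with `|T ∩ [0,x]| ≤ min (g x) (√x)` for
all `x` such that it is decidable whether a given integer linear recurrence sequence has a zero
outside `T`; moreover computable functions `N` and `M > 0` of the input exist such that every zero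
`n ≥ N`, `n ∉ T`, lies in a whole residue class modulo `M` of zeros. -/
theorem result (g : ℕ → ℕ) (hg : Computable g) (hmono : Monotone g)
    (hunb : ∀ k, ∃ n, k ≤ g n) :
    ∃ T : Set ℕ, ComputablePred (fun n => n ∈ T) ∧
      (∀ x : ℕ, (T ∩ Set.Iic x).ncard ≤ min (g x) (Nat.sqrt x)) ∧
      ComputablePred (fun p : List (ℕ × ℕ) × List (ℕ × ℕ) =>
        ∃ u : ℕ → ℤ, IsLRS p u ∧ ∃ n : ℕ, n ∉ T ∧ u n = 0) ∧
      ∃ N M : List (ℕ × ℕ) × List (ℕ × ℕ) → ℕ, Computable N ∧ Computable M ∧
        ∀ (p : List (ℕ × ℕ) × List (ℕ × ℕ)) (u : ℕ → ℤ), IsLRS p u → 0 < M p ∧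
          ∀ n : ℕ, N p ≤ n → n ∉ T → u n = 0 → ∀ k : ℕ, u (n % M p + k * M p) = 0 := by
  classical
  set g' : ℕ → ℕ := fun x => min (g x) (Nat.sqrt x) with hg'
  have hg'c : Computable g' :=
    (Primrec.nat_min.to_comp).comp hg (Primrec.nat_sqrt.to_comp)
  have hg'm : Monotone g' := fun a b hab => min_le_min (hmono hab) (Nat.sqrt_le_sqrt hab)
  have hg'u : ∀ k, ∃ n, k ≤ g' n := by
    intro k
    obtain ⟨n, hn⟩ := hunb k
    refine ⟨max n (k * k), le_min (le_trans hn (hmono (le_max_left _ _))) ?_⟩
    exact Nat.le_sqrt.2 (le_max_right _ _)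
  set iso : Code → ℕ → Prop := fun p n => Valid p ∧ Iso (sq p) (mo p) n with hiso
  have hisoc : ComputablePred fun x : Code × ℕ => iso x.1 x.2 :=
    cp_and (cp_comp valid_comp Computable.fst) iso_comp
  have hcount : ∀ a (W : Finset ℕ), (∀ n ∈ W, iso a n) → W.card ≤ bd a := by
    intro a W hW
    rcases Finset.eq_empty_or_nonempty W with he | ⟨n, hn⟩
    · rw [he]; simp
    · exact bd_spec (hW n hn).1 W fun n hn => (hW n hn).2
  set T := exc bd iso g' with hT
  have hTc : ComputablePred fun n => n ∈ T := exc_comp bd_comp hisoc hg'c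
  have hTs : ∀ x, (T ∩ Set.Iic x).ncard ≤ g' x := fun x => exc_count hcount hg'm x
  obtain ⟨N, hN, hlate⟩ := exc_late (b := bd) bd_comp (iso := iso) hg'c hg'm hg'u
  have hclass : ∀ p : Code, Valid p → ∀ n, N p ≤ n → n ∉ T → sq p n = 0 →
      FullC (sq p) (mo p) (n % mo p) := by
    intro p hv n hn hnT h0
    by_contra hne
    exact hnT (hlate p n hn ⟨hv, h0, hne⟩)
  refine ⟨T, hTc, hTs, ?_, N, mo, hN, mo_prim.to_comp, ?_⟩
  · -- the decision procedure
    have hR : ComputablePred fun y : Code × ℕ => ¬ y.2 ∈ T ∧ sq y.1 y.2 = 0 :=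
      cp_and (cp_comp hTc Computable.snd).not (zero_comp Computable.fst Computable.snd)
    have hX : Computable fun p : Code => N p + mo p * mo p :=
      (Primrec.nat_add.to_comp).comp hN
        ((Primrec.nat_mul.to_comp).comp mo_prim.to_comp mo_prim.to_comp)
    have h1 : ComputablePred fun p : Code =>
        Valid p ∧ ∃ i < N p + mo p * mo p, (¬ i ∈ T ∧ sq p i = 0) :=
      cp_and valid_comp (cp_comp (cp_bex hR) (Computable.id.pair hX))
    refine h1.of_eq ?_
    intro p
    constructor
    · rintro ⟨hv, i, _, hiT, hi0⟩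
      exact ⟨sq p, isLRS_sq hv, i, hiT, hi0⟩
    · rintro ⟨u, hu, n, hnT, hn0⟩
      have hv : Valid p := ⟨hu.1, hu.2.1⟩
      rw [isLRS_unique hu] at hn0
      refine ⟨hv, ?_⟩
      rcases Nat.lt_or_ge n (N p + mo p * mo p) with hlt | hge
      · exact ⟨n, hlt, hnT, hn0⟩
      · have hfull := hclass p hv n (by omega) hnT hn0
        set m := mo p with hm
        have hm0 : 0 < m := mo_pos p
        set r := n % m with hr
        have hrm : r < m := Nat.mod_lt _ hm0
        by_contra hno
        push Not at hno
        have hall : ∀ j < m, r + j * m ∈ T := by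
          intro j hj
          by_contra hjT
          refine hno (r + j * m) ?_ hjT (hfull j hj)
          calc r + j * m < m + j * m := by omega
            _ = (j + 1) * m := by ring
            _ ≤ m * m := Nat.mul_le_mul_right _ (by omega)
            _ ≤ N p + m * m := Nat.le_add_left _ _
        have hcard : m ≤ (T ∩ Set.Iic (m * m - 1)).ncard := by
          have hfin : (T ∩ Set.Iic (m * m - 1)).Finite := (Set.finite_Iic _).inter_of_right _
          have hsub : (((Finset.range m).image fun j => r + j * m : Finset ℕ) : Set ℕ) ⊆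
              T ∩ Set.Iic (m * m - 1) := by
            intro y hy
            rw [Finset.coe_image] at hy
            obtain ⟨j, hj, rfl⟩ := hy
            rw [Finset.coe_range, Set.mem_Iio] at hj
            refine ⟨hall j hj, ?_⟩
            rw [Set.mem_Iic]
            have : r + j * m < m * m := by
              calc r + j * m < m + j * m := by omega
                _ = (j + 1) * m := by ring
                _ ≤ m * m := Nat.mul_le_mul_right _ (by omega)
            show r + j * m ≤ m * m - 1
            omega
          have h2 := Set.ncard_le_ncard hsub hfin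
          rw [Set.ncard_coe_finset, Finset.card_image_of_injective, Finset.card_range] at h2
          · exact h2
          · intro a b hab
            simp only at hab
            have : a * m = b * m := by omega
            exact Nat.eq_of_mul_eq_mul_right hm0 this
        have h3 := le_trans hcard (hTs (m * m - 1))
        have h4 : g' (m * m - 1) < m := by
          refine lt_of_le_of_lt (min_le_right _ _) ?_
          rw [Nat.sqrt_lt]
          have : 0 < m * m := Nat.mul_pos hm0 hm0
          omega
        omega
  · intro p u hu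
    have hv : Valid p := ⟨hu.1, hu.2.1⟩
    rw [isLRS_unique hu]
    refine ⟨mo_pos p, ?_⟩
    intro n hn hnT h0
    have hfull := hclass p hv n hn hnT h0
    refine full_zero (valid_pos hv) (sq_isRec hv.1) (n % mo p) (mo p) ?_
    intro j hj
    apply hfull j
    have h1 : p.1.length ≤ mo p := by
      unfold mo
      apply le_modl
      rw [la_eq]
      exact Int.natAbs_pos.2 (valid_last hv)
    omega

end Pool.Agent.Results.MP_8d13b5_lc.SparseExceptions
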