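import Pool.Agent.H692R2.USS.Final

set_option autoImplicit false

/-!
# A universal Skolem set of natural density one

`S` is an explicit set of natural numbers, defined by the residues of `n` modulo `p` and `p - 1`
for primes `p` that split completely all small polynomials (no recurrences are mentioned in its
definition).  It has natural density one, it is decidable, and the Skolem problem restricted to
indices in `S` is decidable for all integer linear recurrence sequences.

Idea.  If the characteristic polynomial splits into distinct linear factors modulo `p`, then a
simple recurrence sequence has period `p - 1` modulo `p`; so `u n = 0` and `n ≡ b` modulo `p - 1`,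
with `b` small compared with `log p`, give `u b = 0`.  A second moment computation (Brun-Titchmarsh
inequality, Dedekind zeta function) shows that almost every `n` has arbitrarily many such `b`, and
an elementary `p`-adic argument bounds the number of zeros.  The case of multiple roots is reduced
to simple roots, using that `n` modulo `p` is not a root of a small polynomial.
-/

namespace Pool.Agent.Results.MP_8d13b5_lc.UniversalSkolemSet

open Pool.Agent.H692R2.USS
open scoped Classical

/-- An unconditional universal Skolem set of natural density one, for all integer linear
recurrence sequences. -/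
theorem result :
    -- for every level `k` the set of `k`-good numbers has natural density one
    (∀ k : ℕ, Filter.Tendsto (fun N : ℕ =>
        (((Finset.range N).filter (fun n => ∃ i, Good i k n)).card : ℝ) / N)
      Filter.atTop (nhds 1)) ∧
    -- the set `S` has natural density one
    Filter.Tendsto (fun N : ℕ => (((Finset.range N).filter (fun n => n ∈ S)).card : ℝ) / N)
      Filter.atTop (nhds 1) ∧
    -- `S` is decidable
    ComputablePred (fun n : ℕ => n ∈ S) ∧
    -- good zeros of a high, computable level lie in full progressions of zeros
    (∃ κ : List (ℕ × ℕ) × List (ℕ × ℕ) → ℕ, Computable κ ∧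
      ∀ p u, IsLRS p u → ∀ k, κ p ≤ k → ∀ i n, Good i k n → u n = 0 →
        ∃ T, 1 ≤ T ∧ T ≤ κ p ∧ ∀ n', n' ≡ n [MOD T] → u n' = 0) ∧
    -- zeros in `S` beyond a computable bound lie in full progressions of zeros
    (∃ β : List (ℕ × ℕ) × List (ℕ × ℕ) → ℕ, Computable β ∧
      ∀ p u, IsLRS p u → ∀ n ∈ S, β p ≤ n → u n = 0 →
        ∃ T, 1 ≤ T ∧ T ≤ β p ∧ ∀ n', n' ≡ n [MOD T] → u n' = 0) ∧
    -- the Skolem problem restricted to `S` is decidable
    ComputablePred (fun p : List (ℕ × ℕ) × List (ℕ × ℕ) => ∃ u, IsLRS p u ∧ ∃ n ∈ S, u n = 0) :=
  main

end Pool.Agent.Results.MP_8d13b5_lc.UniversalSkolemSet
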